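import Pool.Agent.H52.KP.Targets

set_option autoImplicit false

/-!
# LIMU. The smoothed functional converges
-/

open MeasureTheory Metric Set Topology Filter
open scoped RealInnerProductSpace

namespace Pool.Agent.H16.KP

open Pool.Agent.H52.KP Pool.Agent.H65k

theorem limu : T_LIMU := by
  intro n N M hM ρ s c
  have hMc : Continuous M := hM.1.continuous
  obtain ⟨C, hC⟩ : ∃ C, ∀ t ∈ Icc (0 : ℝ) n, ‖M t‖ ≤ C :=
    isCompact_Icc.exists_bound_of_continuousOn hMc.continuousOn
  have h0mem : (0 : ℝ) ∈ Icc (0 : ℝ) n := ⟨le_rfl, Nat.cast_nonneg n⟩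
  have hsum : ∀ (k : ℕ) (y : Eu N), (∑ l, phk k (pw ρ l (c, y) - s)) ∈ Icc (0 : ℝ) n := by
    intro k y
    refine ⟨Finset.sum_nonneg fun _ _ => phk_nonneg _ _, ?_⟩
    calc ∑ l, phk k (pw ρ l (c, y) - s) ≤ ∑ _l : Fin n, (1 : ℝ) :=
          Finset.sum_le_sum fun _ _ => phk_le_one _ _
      _ = n := by simp
  set R : ℝ := ‖c‖ + (∑ i, |ρ i|) + |s| + 1 with hR
  unfold Us U
  refine tendsto_integral_of_dominated_convergence
    ((closedBall (0 : Eu N) R).indicator fun _ => C + C) ?_ ?_ ?_ ?_
  · intro k
    have hc : Continuous (fun y : Eu N => M (∑ l, phk k (pw ρ l (c, y) - s)) - M 0) := by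
      have h2 : Continuous (phk k) := (phk_contDiff k).continuous
      have h3 : ∀ l, Continuous fun y : Eu N => pw ρ l (c, y) - s := by
        intro l
        unfold pw
        fun_prop
      have h4 : Continuous fun y : Eu N => ∑ l, phk k (pw ρ l (c, y) - s) :=
        continuous_finsetSum _ fun l _ => h2.comp (h3 l)
      exact (hMc.comp h4).sub continuous_const
    exact hc.aestronglyMeasurable
  · rw [integrable_indicator_iff isClosed_closedBall.measurableSet]
    exact integrableOn_const (isCompact_closedBall (0 : Eu N) R).measure_lt_top.ne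
  · intro k
    refine Eventually.of_forall fun y => ?_
    by_cases hy : y ∈ closedBall (0 : Eu N) R
    · rw [indicator_of_mem hy]
      exact (norm_sub_le _ _).trans (add_le_add (hC _ (hsum k y)) (hC _ h0mem))
    · rw [indicator_of_notMem hy]
      have hy' : R < ‖y‖ := by simpa using hy
      have : ∀ l, phk k (pw ρ l (c, y) - s) = 0 := by
        intro l
        apply phk_zero'
        unfold pw
        dsimp only
        have h1 : ‖c l‖ ≤ ‖c‖ := norm_le_pi_norm c l
        have h4 : |ρ l| ≤ ∑ i, |ρ i| :=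
          Finset.single_le_sum (f := fun i => |ρ i|) (fun _ _ => abs_nonneg _) (Finset.mem_univ l)
        have h5 : |ρ l| + |s| + 1 < ‖y - c l‖ := by
          have := norm_sub_norm_le y (c l)
          linarith
        have h7 : 0 ≤ |ρ l| := abs_nonneg _
        have h8 : ρ l ^ 2 = |ρ l| ^ 2 := (sq_abs _).symm
        have h9 : 0 ≤ |s| := abs_nonneg _
        have h10 : s ≤ |s| := le_abs_self _
        rw [h8]
        nlinarith [mul_nonneg h7 h9, mul_nonneg h9 h9]
      simp [this]
  · refine Eventually.of_forall fun y => ?_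
    have h1 : Tendsto (fun k => ∑ l, phk k (pw ρ l (c, y) - s)) atTop (𝓝 (cnt ρ s c y : ℝ)) := by
      have e : (cnt ρ s c y : ℝ) = ∑ l, if pw ρ l (c, y) - s ≤ 0 then (1 : ℝ) else 0 := by
        unfold cnt
        rw [Finset.card_filter]
        push_cast
        refine Finset.sum_congr rfl fun l _ => ?_
        simp only [sub_nonpos]
      rw [e]
      exact tendsto_finsetSum _ fun l _ => phk_tendsto _
    exact ((hMc.tendsto _).comp h1).sub_const _

end Pool.Agent.H16.KP
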